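import Pool.Agent.BEN.StmtsB

/-! Row STL of squad BEN: the lemma of Stampacchia, two cases. -/

namespace Pool.Agent.BEN.H9

open Set Filter Topology

theorem stl1 (P β V : ℝ) (hP : 0 < P) (hV : 0 ≤ V) (hb : 1 < β) :
    ∃ K : ℝ, 0 < K ∧ ∀ (C : ℝ) (Φ : ℝ → ℝ), 0 < C → Antitone Φ →
    (∀ h, 0 ≤ Φ h ∧ Φ h ≤ V) →
    (∀ k h : ℝ, 0 ≤ k → k < h → Φ h ≤ (C / (h - k)) ^ P * Φ k ^ β) → Φ (K * C) = 0 := by
  have hb1 : 0 < β - 1 := by linarith
  set μ : ℝ := P / (β - 1) with hμ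
  have hμ0 : 0 < μ := div_pos hP hb1
  have hμb : μ * (β - 1) = P := by rw [hμ]; field_simp
  set V' : ℝ := max 1 V with hV'
  have hV1 : 1 ≤ V' := le_max_left _ _
  have hV0 : 0 < V' := by linarith
  have hVV : V ≤ V' := le_max_right _ _
  set r : ℝ := (2 : ℝ) ^ (-μ) with hr
  have hr0 : 0 < r := Real.rpow_pos_of_pos (by norm_num) _
  have hr1 : r < 1 := Real.rpow_lt_one_of_one_lt_of_neg (by norm_num) (by linarith)
  set a : ℝ := (2 : ℝ) ^ P with ha
  have ha0 : 0 < a := Real.rpow_pos_of_pos (by norm_num) _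
  set b : ℝ := r ^ β with hbdef
  have hb0 : 0 < b := Real.rpow_pos_of_pos hr0 _
  have hab : a * b = r := by
    rw [ha, hbdef, hr, ← Real.rpow_mul (by norm_num), ← Real.rpow_add (by norm_num)]
    congr 1
    have : P = μ * β - μ := by rw [← hμb]; ring
    rw [this]; ring
  set K : ℝ := (V' ^ (β - 1) * b⁻¹) ^ (1 / P) with hK
  have hKK0 : 0 < V' ^ (β - 1) * b⁻¹ := mul_pos (Real.rpow_pos_of_pos hV0 _) (inv_pos.mpr hb0)
  have hK0 : 0 < K := Real.rpow_pos_of_pos hKK0 _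
  have hKP : K ^ P = V' ^ (β - 1) * b⁻¹ := by
    rw [hK, ← Real.rpow_mul hKK0.le, one_div, inv_mul_cancel₀ hP.ne', Real.rpow_one]
  refine ⟨K, hK0, ?_⟩
  intro C Φ hC hA hΦ hrec
  have hkey : ∀ n : ℕ, Φ (K * C * (1 - (1 / 2 : ℝ) ^ n)) ≤ V' * r ^ n := by
    intro n
    induction n with
    | zero =>
      simp only [pow_zero, sub_self, mul_zero, mul_one]
      exact (hΦ 0).2.trans hVV
    | succ n ih =>
      have hKC : 0 < K * C := mul_pos hK0 hC
      have hp0 : (0 : ℝ) < (1 / 2 : ℝ) ^ n := by positivity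
      have hp1 : (1 / 2 : ℝ) ^ n ≤ 1 := pow_le_one₀ (by norm_num) (by norm_num)
      have h1 : 0 ≤ K * C * (1 - (1 / 2 : ℝ) ^ n) := mul_nonneg hKC.le (by linarith)
      have h2 : K * C * (1 - (1 / 2 : ℝ) ^ n) < K * C * (1 - (1 / 2 : ℝ) ^ (n + 1)) := by
        apply mul_lt_mul_of_pos_left _ hKC
        rw [pow_succ]; linarith
      have h3 := hrec _ _ h1 h2
      have h4 : C / (K * C * (1 - (1 / 2 : ℝ) ^ (n + 1)) - K * C * (1 - (1 / 2 : ℝ) ^ n))
          = 2 ^ (n + 1) / K := by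
        have : K * C * (1 - (1 / 2 : ℝ) ^ (n + 1)) - K * C * (1 - (1 / 2 : ℝ) ^ n)
            = K * C / 2 ^ (n + 1) := by
          rw [one_div, inv_pow, inv_pow, pow_succ]
          have : (2 : ℝ) ^ n ≠ 0 := by positivity
          field_simp
          ring
        rw [this]
        field_simp
      rw [h4] at h3
      have h5 : (2 ^ (n + 1) / K : ℝ) ^ P = a ^ (n + 1) * (K ^ P)⁻¹ := by
        rw [Real.div_rpow (by positivity) hK0.le, ← Real.rpow_natCast 2 (n + 1),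
          ← Real.rpow_mul (by norm_num), mul_comm ((n + 1 : ℕ) : ℝ) P,
          Real.rpow_mul (by norm_num), Real.rpow_natCast, div_eq_mul_inv]
      have h6 : Φ (K * C * (1 - (1 / 2 : ℝ) ^ n)) ^ β ≤ (V' * r ^ n) ^ β :=
        Real.rpow_le_rpow (hΦ _).1 ih (by linarith)
      have h7 : (V' * r ^ n) ^ β = V' ^ β * b ^ n := by
        rw [Real.mul_rpow hV0.le (by positivity), ← Real.rpow_natCast r n,
          ← Real.rpow_mul hr0.le, mul_comm (n : ℝ) β, Real.rpow_mul hr0.le, Real.rpow_natCast]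
      calc Φ (K * C * (1 - (1 / 2 : ℝ) ^ (n + 1)))
          ≤ (2 ^ (n + 1) / K : ℝ) ^ P * Φ (K * C * (1 - (1 / 2 : ℝ) ^ n)) ^ β := h3
        _ ≤ (2 ^ (n + 1) / K : ℝ) ^ P * (V' * r ^ n) ^ β :=
            mul_le_mul_of_nonneg_left h6 (Real.rpow_nonneg (by positivity) _)
        _ = V' * r ^ (n + 1) := by
            rw [h5, h7, hKP, mul_inv, inv_inv, ← hab, mul_pow]
            have hVb : (V' ^ (β - 1))⁻¹ * V' ^ β = V' := by
              rw [← Real.rpow_neg hV0.le, ← Real.rpow_add hV0]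
              have : -(β - 1) + β = 1 := by ring
              rw [this, Real.rpow_one]
            calc a ^ (n + 1) * ((V' ^ (β - 1))⁻¹ * b) * (V' ^ β * b ^ n)
                = ((V' ^ (β - 1))⁻¹ * V' ^ β) * (a ^ (n + 1) * (b ^ n * b)) := by ring
              _ = V' * (a ^ (n + 1) * b ^ (n + 1)) := by rw [hVb, pow_succ b n]
  have hle : ∀ n : ℕ, Φ (K * C) ≤ V' * r ^ n := by
    intro n
    refine (hA ?_).trans (hkey n)
    have hKC : 0 < K * C := mul_pos hK0 hC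
    have hp0 : (0 : ℝ) < (1 / 2 : ℝ) ^ n := by positivity
    nlinarith
  have hlim : Tendsto (fun n : ℕ => V' * r ^ n) atTop (𝓝 (V' * 0)) :=
    (tendsto_pow_atTop_nhds_zero_of_lt_one hr0.le hr1).const_mul V'
  have h0 : Φ (K * C) ≤ V' * 0 := ge_of_tendsto' hlim hle
  rw [mul_zero] at h0
  exact le_antisymm h0 (hΦ _).1

theorem stl2 (P β V : ℝ) (hP : 0 < P) (hβ : 0 < β) (hV : 0 ≤ V) (hb : β < 1) :
    ∃ K : ℝ, 0 < K ∧ ∀ (C : ℝ) (Φ : ℝ → ℝ), 0 < C → Antitone Φ →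
    (∀ h, 0 ≤ Φ h ∧ Φ h ≤ V) →
    (∀ k h : ℝ, 0 ≤ k → k < h → Φ h ≤ (C / (h - k)) ^ P * Φ k ^ β) →
    ∀ h ≥ C, Φ h ≤ K * (C / h) ^ (P / (1 - β)) := by
  have hb1 : 0 < 1 - β := by linarith
  set ν : ℝ := P / (1 - β) with hν
  have hν0 : 0 < ν := div_pos hP hb1
  have hνb : ν * (1 - β) = P := by rw [hν]; field_simp
  set s : ℝ := (2 : ℝ) ^ ν with hs
  have hs0 : 0 < s := Real.rpow_pos_of_pos (by norm_num) _
  set q : ℝ := (2 : ℝ) ^ (ν / (1 - β)) with hq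
  have hq0 : 0 < q := Real.rpow_pos_of_pos (by norm_num) _
  set K' : ℝ := max V q with hK'
  have hK'0 : 0 < K' := lt_of_lt_of_le hq0 (le_max_right _ _)
  have hK'V : V ≤ K' := le_max_left _ _
  have hK'q : q ≤ K' := le_max_right _ _
  have hstep : K' ^ β * s ≤ K' := by
    have h1 : s ≤ K' ^ (1 - β) := by
      calc s = q ^ (1 - β) := by
            rw [hq, hs, ← Real.rpow_mul (by norm_num), div_mul_cancel₀ _ hb1.ne']
        _ ≤ K' ^ (1 - β) := Real.rpow_le_rpow hq0.le hK'q hb1.le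
    calc K' ^ β * s ≤ K' ^ β * K' ^ (1 - β) :=
          mul_le_mul_of_nonneg_left h1 (Real.rpow_nonneg hK'0.le _)
      _ = K' := by
          rw [← Real.rpow_add hK'0]
          have : β + (1 - β) = 1 := by ring
          rw [this, Real.rpow_one]
  refine ⟨K' * s, mul_pos hK'0 hs0, ?_⟩
  intro C Φ hC hA hΦ hrec
  have hkey : ∀ n : ℕ, Φ (2 ^ n * C) ≤ K' * (s⁻¹) ^ n := by
    intro n
    induction n with
    | zero =>
      simp only [pow_zero, one_mul, mul_one]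
      exact (hΦ C).2.trans hK'V
    | succ n ih =>
      have h1 : (0 : ℝ) ≤ 2 ^ n * C := by positivity
      have h2 : (2 : ℝ) ^ n * C < 2 ^ (n + 1) * C := by
        apply mul_lt_mul_of_pos_right _ hC
        rw [pow_succ]
        have : (0 : ℝ) < 2 ^ n := by positivity
        linarith
      have h3 := hrec _ _ h1 h2
      have h4 : C / (2 ^ (n + 1) * C - 2 ^ n * C) = (2 ^ n : ℝ)⁻¹ := by
        have : (2 : ℝ) ^ (n + 1) * C - 2 ^ n * C = 2 ^ n * C := by rw [pow_succ]; ring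
        rw [this]
        field_simp
      rw [h4] at h3
      have h5 : ((2 ^ n : ℝ)⁻¹) ^ P = ((2 : ℝ) ^ (-P)) ^ n := by
        rw [Real.inv_rpow (by positivity), ← Real.rpow_natCast 2 n, ← Real.rpow_mul (by norm_num),
          ← Real.rpow_neg (by norm_num), ← Real.rpow_natCast ((2 : ℝ) ^ (-P)) n,
          ← Real.rpow_mul (by norm_num)]
        congr 1; ring
      have h6 : Φ (2 ^ n * C) ^ β ≤ (K' * (s⁻¹) ^ n) ^ β :=
        Real.rpow_le_rpow (hΦ _).1 ih hβ.le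
      have hsi : 0 < s⁻¹ := inv_pos.mpr hs0
      have h7 : (K' * (s⁻¹) ^ n) ^ β = K' ^ β * ((s⁻¹) ^ β) ^ n := by
        rw [Real.mul_rpow hK'0.le (by positivity), ← Real.rpow_natCast s⁻¹ n,
          ← Real.rpow_mul hsi.le, mul_comm (n : ℝ) β, Real.rpow_mul hsi.le, Real.rpow_natCast]
      have h8 : (2 : ℝ) ^ (-P) * (s⁻¹) ^ β = s⁻¹ := by
        rw [hs, ← Real.rpow_neg (by norm_num), ← Real.rpow_mul (by norm_num),
          ← Real.rpow_add (by norm_num)]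
        congr 1
        rw [← hνb]; ring
      calc Φ (2 ^ (n + 1) * C) ≤ ((2 ^ n : ℝ)⁻¹) ^ P * Φ (2 ^ n * C) ^ β := h3
        _ ≤ ((2 ^ n : ℝ)⁻¹) ^ P * (K' * (s⁻¹) ^ n) ^ β :=
            mul_le_mul_of_nonneg_left h6 (Real.rpow_nonneg (by positivity) _)
        _ = K' ^ β * (s⁻¹) ^ n := by
            rw [h5, h7]
            calc ((2 : ℝ) ^ (-P)) ^ n * (K' ^ β * ((s⁻¹) ^ β) ^ n)
                = K' ^ β * (((2 : ℝ) ^ (-P)) ^ n * ((s⁻¹) ^ β) ^ n) := by ring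
              _ = K' ^ β * (s⁻¹) ^ n := by rw [← mul_pow, h8]
        _ = (K' ^ β * s) * (s⁻¹) ^ (n + 1) := by
            rw [pow_succ]
            field_simp
        _ ≤ K' * (s⁻¹) ^ (n + 1) := mul_le_mul_of_nonneg_right hstep (by positivity)
  intro h hh
  have hh0 : 0 < h := lt_of_lt_of_le hC hh
  obtain ⟨n, hn1, hn2⟩ := exists_nat_pow_near (x := h / C) (y := (2 : ℝ))
    ((one_le_div hC).mpr hh) (by norm_num)
  have h1 : 2 ^ n * C ≤ h := (le_div_iff₀ hC).mp hn1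
  have h2 : h < 2 ^ (n + 1) * C := (div_lt_iff₀ hC).mp hn2
  have h3 : (s⁻¹) ^ (n + 1) ≤ (C / h) ^ ν := by
    have h4 : ((2 : ℝ) ^ (n + 1))⁻¹ ≤ C / h := by
      rw [inv_eq_one_div, div_le_div_iff₀ (by positivity) hh0]
      linarith
    have h5 : (((2 : ℝ) ^ (n + 1))⁻¹) ^ ν = (s⁻¹) ^ (n + 1) := by
      rw [Real.inv_rpow (by positivity), ← Real.rpow_natCast 2 (n + 1),
        ← Real.rpow_mul (by norm_num), inv_pow, hs, ← Real.rpow_natCast ((2 : ℝ) ^ ν) (n + 1),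
        ← Real.rpow_mul (by norm_num)]
      congr 2; ring
    rw [← h5]
    exact Real.rpow_le_rpow (by positivity) h4 hν0.le
  calc Φ h ≤ Φ (2 ^ n * C) := hA h1
    _ ≤ K' * (s⁻¹) ^ n := hkey n
    _ = K' * s * (s⁻¹) ^ (n + 1) := by
        rw [pow_succ]
        field_simp
    _ ≤ K' * s * (C / h) ^ ν := mul_le_mul_of_nonneg_left h3 (by positivity)

theorem stl : StlStmt := by
  intro P β V hP hβ hV
  exact ⟨fun hb => stl1 P β V hP hV hb, fun hb => stl2 P β V hP hβ hV hb⟩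

end Pool.Agent.BEN.H9
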